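import Pool.Agent.H641.Unb

/-!
# MP_8c1a1d_lc: Miller measurability of all analytic sets without the Hurewicz dichotomy

The model: start with an uncountable `κ` with `κ ^ (< κ) = κ` in a model `V₀` of ZFC, add one
Cohen real `c` (forcing `Coh`), and then add more than `κ` many Cohen subsets of `κ` over `V₀[c]`
(forcing `Cond K J K`). In the final model `κ ^ (< κ) = κ`, all analytic subsets of `κ ^ κ` are
`κ`-Miller measurable, and the closed set of the branches of the tree `T = (κ ^ (< κ)) ∩ V₀` fails
the Hurewicz dichotomy. Between the two steps one can also force with any countably closed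
forcing of size at most `κ` with the `κ`-chain condition; with the usual preparation below a weakly
compact `κ` this keeps `κ` weakly compact in the final model.

Conventions, as in the usual treatment of forcing:

* `Kap K`: the linear order `K` is a well-order whose order type is an uncountable regular
  cardinal (`κ`, with `K = κ.ord.ToType`). `Nd K K` is the set `κ ^ (< κ)` of nodes, `s ≤ t` means
  that `s` extends `t`, and `seg x b` is the restriction of `x` to `b`.
* `Cond K J K`: the set of the functions of size less than `κ` from a subset of `J` to `K`,
  ordered by reverse inclusion, that is the usual forcing `Add(κ, #J)` up to the usual recoding.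
* A sentence of the forcing language is the set of the conditions which force it (`Force.lean`).
  A function of the extension from a set `X` to a set `Y` of the ground model is named by
  a map `X → Y → Set P`.
* `SigmaMiller`: all analytic sets are Miller measurable, in the extension (`Sig.lean`).
* `Dominating T`: every function is dominated by a branch of `T`; `Unbdd T`: the branches of `T`
  are not bounded by one function; `NoScheme T`: no binary scheme of nodes of `T` indexed by the
  finite sequences of bits has all its limits covered by nodes of `T`; `FDom`, `FUnb`, `FNoScheme`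
  are the corresponding sentences of the forcing language, for a set `T` of ground model nodes.
* `HD A`: the set `A` satisfies the Hurewicz dichotomy. `br T`: the set of the branches of `T`.
-/

set_option linter.unusedSectionVars false

namespace Pool.Agent.Results.MP_8c1a1d_lc.MillerNotHurewicz

open Cardinal Set Pool.Agent.H641

universe u

/-- In the extension by `P`, `K` is regular with `K ^ (< K) = K`, the branches of `T` which are in
the ground model dominate all functions, and `T` has the property `NoScheme`. -/
def Prep (K : Type u) [LinearOrder K] [Kap K] (P : Type u) [Preorder P] (T : Set (Nd K K)) :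
    Set P :=
  fand (StaysRegular K P) (fand (FewSeq K P) (fand (FDom P T) (FNoScheme P T)))

/-- In the extension by `P` there are no new sequences of length less than `K`, `K` is regular
with `K ^ (< K) = K`, every analytic set is Miller measurable, the branches of `T` are not bounded
by one function, and `T` has the property `NoScheme`. -/
def Goal (K : Type u) [LinearOrder K] [Kap K] (P : Type u) [Preorder P] (T : Set (Nd K K)) :
    Set P :=
  fand (fall fun X : Type u => NoNew K P X) (fand (StaysRegular K P) (fand (FewNodes K P)
    (fand (SigmaMiller K P) (fand (FUnb P T) (FNoScheme P T)))))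

theorem kap {κ : Cardinal.{u}} (h : κ.IsRegular) (h' : ℵ₀ < κ) : Kap κ.ord.ToType where
  wf := inferInstance
  reg := by rwa [mk_ord_toType]
  small := fun a => by
    rw [mk_ord_toType]
    exact mk_Iio_toType_ord_lt a
  unc := by rwa [mk_ord_toType]

theorem big_self {K : Type u} [LinearOrder K] [Kap K] (h : #K ^< #K = #K) : Big K K where
  le := le_rfl
  pow := fun a => by
    rw [mk_arrow, lift_id, lift_id]
    exact (le_powerlt _ (Kap.small a)).trans h.le

theorem result :
    (∀ κ : Cardinal.{u}, κ.IsRegular → ℵ₀ < κ → Kap κ.ord.ToType) ∧
    (∀ (K : Type u) [LinearOrder K] [Kap K], #K ^< #K = #K →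
      ∀ p : Coh.{u}, p ∈ Prep K Coh.{u} univ) ∧
    (∀ (K : Type u) [LinearOrder K] [Kap K], #K ^< #K = #K →
      ∀ T : Set (Nd K K), Dominating T → NoScheme T →
      ∀ (Q : Type u) [Preorder Q], #Q ≤ #K → CC K Q → SigmaClosed Q →
      ∀ p : Q, p ∈ Prep K Q T) ∧
    (∀ (K : Type u) [LinearOrder K] [Kap K], #K ^< #K = #K →
      ∀ T : Set (Nd K K), Dominating T → NoScheme T →
      ∀ J : Type u, #K < #J → ∀ p : Cond K J K, p ∈ Goal K (Cond K J K) T) ∧
    (∀ (K : Type u) [LinearOrder K] [Kap K] (T : Set (Nd K K)), Unbdd T → NoScheme T →
      IsClosed (br T) ∧ ¬ HD (br T)) := by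
  refine ⟨fun _ h h' => kap h h', ?_, ?_, ?_, ?_⟩
  · intro K _ _ h p
    exact ⟨Coh.cc.staysRegular p, Coh.cc.fewSeq (big_self h) Coh.card p,
      Coh.cc.fDom dominating_univ p, Coh.fNoScheme univ p⟩
  · intro K _ _ h T hD hN Q _ hQ hcc hsc p
    exact ⟨hcc.staysRegular p, hcc.fewSeq (big_self h) hQ p, hcc.fDom hD p, hsc.fNoScheme hN p⟩
  · intro K _ _ h T hD hN J hJ p
    exact ⟨fun X => noNew X p, staysRegular p, fewNodes (big_self h) hJ p,
      sigmaMiller (big_self h) hJ p, fUnb (big_self h) hD p, sigmaClosed_cond.fNoScheme hN p⟩
  · intro K _ _ T hU hN
    exact ⟨isClosed_br T, not_HD hN hU⟩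

end Pool.Agent.Results.MP_8c1a1d_lc.MillerNotHurewicz
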